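import Pool.Agent.Q280.MD2.Add

/-!
# The modular Schanuel conjecture with derivatives and special points: the errors of its three parts add

For the special closure `U` of `(z_1, …, z_n)` one has `dim ⟨U⟩ - dim U = 3 m_1 + m_2`, where `m_1` is the number of the
`GL_2^+(ℚ)`-classes of the non-quadratic `z_i` and `m_2` is the number of the imaginary quadratic fields which contain some
`z_i` with `j(z_i) ≠ 0` (see the problem file).  So the conjecture says: for pairwise inequivalent points with `j(z_i) ≠ 0`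
there are `3 m_1 + m_2` algebraically independent numbers among the `z_i`, `j(z_i)`, `j'(z_i)`, `j''(z_i)`.

The conjecture *up to the error `C`* claims only `3 m_1 + m_2 - C` algebraically independent numbers.  We split the points
of the upper half-plane into three parts.

* *Special points*: the quadratic points.  Part 1 of the conjecture, up to the error `a`: for quadratic points
  `τ_1, …, τ_m` in different imaginary quadratic fields, with `j'(τ_k) ≠ 0`, there are `m - a` algebraically independent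
  numbers among `j'(τ_1), …, j'(τ_m)`.
* *Closed form points*: the smallest set `E` of non-quadratic points such that `z` is in `E` as soon as, for some finite
  `F ⊆ E`, there is a nontrivial polynomial relation between `z`, `j(z)`, `j'(z)`, `j''(z)` over the field generated by the
  values at the quadratic points and at the points of `F`.  Part 2, up to the error `b`: for pairwise inequivalent closed
  form points `z_1, …, z_n` there are `3 n - b` numbers among the `4 n` numbers which are algebraically independent over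
  the field of the special points.
* *The other points*: the non-quadratic points which are not equivalent to a closed form point.  Part 3, up to the error
  `c`: for pairwise inequivalent such points there are `3 n - c` numbers which are algebraically independent over the field
  of all special and closed form points.

**Theorem.** The conjecture holds up to the error `C` if and only if `C = a + b + c` such that the three parts hold up to
the errors `a`, `b`, `c`.  So the least error of the conjecture is the sum of the least errors of the three parts.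

Proof.  The defect `3 m_1 + m_2 - trdeg` of a finite set of classes does not decrease if special or closed form points are
added (with the points which occur in their relations), so a set of special (closed form) points with the largest defect can
be enlarged to control any finite part of the field of the special (closed form) points.
-/

set_option autoImplicit false

open Matroid Set Q241.SX

namespace Pool.Agent.Results.MP_5e64e7_nt.ErrorsAdd

/-- the normalised Eisenstein series of weight `4` -/
noncomputable def E4 (τ : ℂ) : ℂ :=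
  1 + 240 * ∑' m : ℕ, ((ArithmeticFunction.sigma 3 (m + 1) : ℕ) : ℂ) *
    Complex.exp (2 * (Real.pi : ℂ) * Complex.I * τ) ^ (m + 1)

/-- the normalised Eisenstein series of weight `6` -/
noncomputable def E6 (τ : ℂ) : ℂ :=
  1 - 504 * ∑' m : ℕ, ((ArithmeticFunction.sigma 5 (m + 1) : ℕ) : ℂ) *
    Complex.exp (2 * (Real.pi : ℂ) * Complex.I * τ) ^ (m + 1)

/-- the modular invariant `j = q⁻¹ + 744 + 196884 q + ⋯` -/
noncomputable def J (τ : ℂ) : ℂ := 1728 * E4 τ ^ 3 / (E4 τ ^ 3 - E6 τ ^ 2)

/-- The numbers `z`, `j(z)`, `j'(z)`, `j''(z)`. -/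
noncomputable def numbers (z : ℂ) : Fin 4 → ℂ := ![z, J z, deriv J z, deriv (deriv J) z]

/-- `z` is quadratic. -/
def Quadratic (z : ℂ) : Prop := ∃ a b c : ℤ, a ≠ 0 ∧ (a : ℂ) * z ^ 2 + (b : ℂ) * z + (c : ℂ) = 0

/-- `w = (a z + b) / (c z + d)` for a rational matrix of positive determinant. -/
def Equivalent (z w : ℂ) : Prop :=
  ∃ a b c d : ℚ, 0 < a * d - b * c ∧ w = ((a : ℂ) * z + (b : ℂ)) / ((c : ℂ) * z + (d : ℂ))

open Classical in
/-- `1` for quadratic points and `3` for the other points -/
noncomputable def weight (z : ℂ) : ℕ := if Quadratic z then 1 else 3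

/-- The conjecture up to the error `C`: for pairwise inequivalent points with `j ≠ 0`, `m_1` of them not quadratic and
`m_2` of them quadratic, there are `3 m_1 + m_2 - C` algebraically independent ones among the numbers `z_i`, `j(z_i)`,
`j'(z_i)`, `j''(z_i)`. -/
def ConjectureUpTo (C : ℕ) : Prop :=
  ∀ (n : ℕ) (z : Fin n → ℂ), (∀ i, 0 < (z i).im ∧ J (z i) ≠ 0) → (∀ i k, i ≠ k → ¬ Equivalent (z i) (z k)) →
    ∃ w : Fin (∑ i, weight (z i) - C) → ℂ, (∀ k, ∃ i t, w k = numbers (z i) t) ∧ AlgebraicIndependent ℚ w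

/-- The special part of the conjecture, up to the error `a`: among the values of `j'` at quadratic points in `m` different
imaginary quadratic fields there are `m - a` algebraically independent ones, if they are not zero. -/
def SpecialUpTo (a : ℕ) : Prop :=
  ∀ (m : ℕ) (τ : Fin m → ℂ), (∀ i, 0 < (τ i).im ∧ Quadratic (τ i) ∧ deriv J (τ i) ≠ 0) →
    (∀ i k, i ≠ k → ¬ Equivalent (τ i) (τ k)) →
    ∃ w : Fin (m - a) → ℂ, (∀ k, ∃ i, w k = deriv J (τ i)) ∧ AlgebraicIndependent ℚ w

/-- The quadratic points of the upper half-plane. -/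
def QuadraticPoints : Set ℂ := {τ | 0 < τ.im ∧ Quadratic τ}

/-- The field generated by the numbers `z`, `j(z)`, `j'(z)`, `j''(z)` with `z` quadratic or in `F`. -/
noncomputable abbrev fieldOf (F : Set ℂ) : IntermediateField ℚ ℂ :=
  IntermediateField.adjoin ℚ (⋃ y ∈ QuadraticPoints ∪ F, range (numbers y))

/-- The closed form points: the smallest set `E` of non-quadratic points of the upper half-plane which contains `z` as soon
as, for some finite `F ⊆ E`, there is a nontrivial polynomial relation between `z`, `j(z)`, `j'(z)`, `j''(z)` over the field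
generated by the values of `j`, `j'`, `j''` at the quadratic points and by the points of `F` and the values there. -/
inductive ClosedForm : ℂ → Prop
  | intro (F : Finset ℂ) (z : ℂ) (hF : ∀ y ∈ F, ClosedForm y) (him : 0 < z.im) (hq : ¬ Quadratic z)
      (h : ¬ AlgebraicIndependent (fieldOf F) (numbers z)) : ClosedForm z

/-- The second part, up to the error `b`: for `n` pairwise inequivalent closed form points there are `3 n - b` numbers
among the `z_i`, `j(z_i)`, `j'(z_i)`, `j''(z_i)` which are algebraically independent over the field `fieldOf ∅` generated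
by the values of `j`, `j'`, `j''` at the quadratic points. -/
def ClosedFormUpTo (b : ℕ) : Prop :=
  ∀ (n : ℕ) (z : Fin n → ℂ), (∀ i, ClosedForm (z i)) → (∀ i k, i ≠ k → ¬ Equivalent (z i) (z k)) →
    ∃ w : Fin (3 * n - b) → ℂ, (∀ k, ∃ i t, w k = numbers (z i) t) ∧ AlgebraicIndependent (fieldOf ∅) w

/-- The third part, up to the error `c`: for `n` pairwise inequivalent non-quadratic points which are not equivalent to
closed form points there are `3 n - c` numbers among the `z_i`, `j(z_i)`, `j'(z_i)`, `j''(z_i)` which are algebraically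
independent over the field generated by all quadratic and all closed form points and the values there. -/
def GenericUpTo (c : ℕ) : Prop :=
  ∀ (n : ℕ) (z : Fin n → ℂ),
    (∀ i, 0 < (z i).im ∧ ¬ Quadratic (z i) ∧ ∀ x, ClosedForm x → ¬ Equivalent x (z i)) →
    (∀ i k, i ≠ k → ¬ Equivalent (z i) (z k)) →
    ∃ w : Fin (3 * n - c) → ℂ, (∀ k, ∃ i t, w k = numbers (z i) t) ∧
      AlgebraicIndependent (fieldOf {x | ClosedForm x}) w

/-! ### Preparations -/

open Pool.Agent.Q280.MD
open Pool.Agent.TH21.MS (jj)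

theorem J_eq : J = jj := rfl

theorem range_numbers (z : ℂ) : range (numbers z) = jet z := by
  rw [jet_eq_range, numbers, J_eq]

theorem cm_iff {z : ℂ} (hz : 0 < z.im) : Quadratic z ↔ Pool.Agent.Q280.MS.CM z := (cm_iff_quad hz).symm

theorem eqv_iff {z w : ℂ} (hz : 0 < z.im) : Equivalent z w ↔ Pool.Agent.Q280.MS.Equivalent z w :=
  (equivalent_iff_div hz).symm

/-- the system of the points with `j ≠ 0` -/
@[reducible] noncomputable def A : SysW := sysD _ goodJ

theorem weight_eq {z : ℂ} (hz : 0 < z.im) : weight z = wgt z := by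
  unfold weight wgt
  by_cases h : Quadratic z
  · rw [if_pos h, if_pos ((cm_iff hz).mp h)]
  · rw [if_neg h, if_neg fun h' => h ((cm_iff hz).mpr h')]

theorem q_eq_iff {x y : A.X} : A.q x = A.q y ↔ Equivalent x.1 y.1 := by
  rw [eqv_iff x.2.1]
  exact sysD_q goodJ

theorem mem_numbers {n : ℕ} {z : Fin n → ℂ} {a : ℂ} : a ∈ (⋃ i, jet (z i)) ↔ ∃ i t, a = numbers (z i) t := by
  rw [mem_iUnion]
  refine exists_congr fun i => ?_
  rw [← range_numbers, mem_range]
  exact exists_congr fun t => eq_comm

/-- the quadratic classes -/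
def Sp : Set A.O := {v | A.wt v = 1}

theorem mem_Sp {x : A.X} : A.q x ∈ Sp ↔ Pool.Agent.Q280.MS.CM x.1 := by
  show wgt x.1 = 1 ↔ _
  constructor
  · intro h
    by_contra hcm
    rw [wgt_ncm hcm] at h
    norm_num at h
  · exact wgt_cm

theorem wt_or (v : A.O) : A.wt v = 1 ∨ A.wt v = 3 := by
  obtain ⟨x, rfl⟩ := Quotient.exists_rep v
  by_cases h : Pool.Agent.Q280.MS.CM x.1
  · exact Or.inl (wgt_cm h)
  · exact Or.inr (wgt_ncm h)

theorem P_Sp_sub : A.P Sp ⊆ ⋃ y ∈ QuadraticPoints ∪ ∅, range (numbers y) := by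
  rintro a ⟨x, hx, ha⟩
  simp only [mem_iUnion]
  refine ⟨x.1, Or.inl ⟨x.2.1, (cm_iff x.2.1).mpr (mem_Sp.mp hx)⟩, ?_⟩
  rw [range_numbers]
  exact ha

theorem sub_P_Sp (F : Set ℂ) : (⋃ y ∈ QuadraticPoints ∪ F, range (numbers y)) ⊆
    M.closure (A.P Sp ∪ ⋃ y ∈ F, range (numbers y)) := by
  refine iUnion₂_subset fun y hy => ?_
  rcases hy with hy | hy
  · rw [range_numbers]
    by_cases hj : jj y = 0
    · exact jet_of_jj hy.1 hj _
    · refine Subset.trans ?_ (subset_cl _)
      refine Subset.trans ?_ subset_union_left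
      exact SysW.S_sub_P (A := A) (x := ⟨y, hy.1, hj⟩) (mem_Sp.mpr ((cm_iff hy.1).mp hy.2))
  · exact (subset_biUnion_of_mem (u := fun y => range (numbers y)) hy).trans
      (subset_union_right.trans (subset_cl _))

theorem field_sub : (⋃ y ∈ QuadraticPoints ∪ ∅, range (numbers y)) ⊆ M.closure (A.P Sp) := by
  have := sub_P_Sp ∅
  simpa using this

theorem Wt_Sp (V : Finset A.O) (hV : (V : Set A.O) ⊆ Sp) : A.Wt V = V.card := by
  unfold SysW.Wt
  rw [Finset.sum_congr rfl fun v hv => hV (Finset.mem_coe.mpr hv), Finset.sum_const, smul_eq_mul, mul_one]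


open Classical in
theorem conj_iff (C : ℕ) : ConjectureUpTo C ↔ ∀ V : Finset A.O, SysW.dfc V ≤ C := by
  constructor
  · intro h V
    obtain ⟨u, _, h1, h2, h3⟩ := SysW.exists_reps V univ fun v _ => by
      obtain ⟨x, rfl⟩ := Quotient.exists_rep v
      exact ⟨x, mem_univ _, rfl⟩
    obtain ⟨w, hw1, hw2⟩ := h _ (fun i => (u i).1) (fun i => (u i).2)
      (fun i k hik he => hik (h3 i k (q_eq_iff.mpr he)))
    have h0 : ∑ i, weight (u i).1 = ∑ i, A.w (u i) :=
      Finset.sum_congr rfl fun i _ => weight_eq (u i).2.1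
    have h4 : ((∑ i, weight (u i).1 - C : ℕ) : ℕ∞) ≤ A.rk (SysW.img u : Set A.O) := by
      rw [SysW.rk_img]
      exact enat_le_eRk w hw2 fun k => subset_cl _ (mem_numbers.mpr (hw1 k))
    have h5 : SysW.img u = V := by
      ext v
      unfold SysW.img
      rw [Finset.mem_image]
      constructor
      · rintro ⟨i, _, rfl⟩
        exact h1 i
      · intro hv
        obtain ⟨k, hk⟩ := h2 v hv
        exact ⟨k, Finset.mem_univ _, hk⟩
    rw [h0, ← SysW.Wt_img u h3, h5, ← SysW.rN_le_iff] at h4
    unfold SysW.dfc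
    omega
  · intro h n z h1 h2
    obtain ⟨u, hu⟩ : ∃ u : Fin n → A.X, u = fun i => ⟨z i, h1 i⟩ := ⟨_, rfl⟩
    have hinj : ∀ i k, A.q (u i) = A.q (u k) → i = k := by
      intro i k hik
      by_contra hne
      rw [hu] at hik
      exact h2 i k hne (q_eq_iff.mp hik)
    have h3 := h (SysW.img u)
    unfold SysW.dfc at h3
    rw [SysW.Wt_img _ hinj] at h3
    have h0 : ∑ i, weight (z i) = ∑ i, A.w (u i) :=
      Finset.sum_congr rfl fun i _ => by rw [hu]; exact weight_eq (h1 i).1
    have h4 : ∑ i, weight (z i) - C ≤ SysW.rN (SysW.img u) := by omega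
    rw [SysW.rN_le_iff, SysW.rk_img, hu] at h4
    obtain ⟨w, hw1, hw2⟩ := exists_of_le_eRk h4
    exact ⟨w, fun k => mem_numbers.mp (hw1 k), hw2⟩

open Classical in
/-- the special part of the conjecture in terms of the ranks -/
theorem special_iff (a : ℕ) :
    SpecialUpTo a ↔ ∀ V : Finset A.O, (V : Set A.O) ⊆ Sp → V.card ≤ SysW.rN V + a := by
  constructor
  · intro h V hV
    obtain ⟨u, hu0, h1, h2, h3⟩ := SysW.exists_reps V {x : A.X | deriv jj x.1 ≠ 0} fun v _ => by
      obtain ⟨x, rfl⟩ := Quotient.exists_rep v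
      obtain ⟨y, hy1, hy2, hy3⟩ := exists_near x.2.1 x.2.2
      have hy4 : jj y ≠ 0 := fun h0 => hy3 (zeros4 hy1 (E4_of_jj hy1 h0)).2.1
      exact ⟨⟨y, hy1, hy4⟩, hy3, q_eq_iff.mpr ((eqv_iff hy1).mpr hy2.symm)⟩
    obtain ⟨w, hw1, hw2⟩ := h _ (fun i => (u i).1) (fun i => ⟨(u i).2.1,
      (cm_iff (u i).2.1).mpr (mem_Sp.mp (hV (Finset.mem_coe.mpr (h1 i)))), hu0 i⟩)
      (fun i k hik he => hik (h3 i k (q_eq_iff.mpr he)))
    have h5 : V.card - a ≤ SysW.rN V := by
      rw [SysW.rN_le_iff]
      refine enat_le_eRk _ hw2 fun k => subset_cl _ ?_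
      obtain ⟨i, hi⟩ := hw1 k
      rw [hi]
      exact SysW.S_sub_P (A := A) (Finset.mem_coe.mpr (h1 i)) (jet2 _)
    omega
  · intro h m τ h1 h2
    obtain ⟨u, hu⟩ : ∃ u : Fin m → A.X, u = fun i => ⟨τ i, (h1 i).1, fun h0 =>
      (h1 i).2.2 (zeros4 (h1 i).1 (E4_of_jj (h1 i).1 h0)).2.1⟩ := ⟨_, rfl⟩
    have hinj : ∀ i k, A.q (u i) = A.q (u k) → i = k := by
      intro i k hik
      by_contra hne
      rw [hu] at hik
      exact h2 i k hne (q_eq_iff.mp hik)
    have h3 := h (SysW.img u) (by
      intro v hv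
      unfold SysW.img at hv
      rw [Finset.mem_coe, Finset.mem_image] at hv
      obtain ⟨i, _, rfl⟩ := hv
      rw [hu]
      exact mem_Sp.mpr ((cm_iff (h1 i).1).mp (h1 i).2.1))
    rw [SysW.card_image u hinj] at h3
    have h4 : m - a ≤ SysW.rN (SysW.img u) := by omega
    rw [SysW.rN_le_iff, SysW.rk_img] at h4
    have h5 : M.eRk (⋃ i, A.S (u i)) ≤ M.eRk (range fun i => deriv J (τ i)) := by
      rw [← M.eRk_closure_eq (range fun i => deriv J (τ i))]
      refine M.eRk_mono (iUnion_subset fun i => ?_)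
      have h4 := jet_cm (h1 i).1 ((cm_iff (h1 i).1).mp (h1 i).2.1) (h1 i).2.2
      have h5 : A.S (u i) = jet (τ i) := by rw [hu]
      rw [h5]
      exact h4.trans (cl_mono (singleton_subset_iff.mpr ⟨i, rfl⟩))
    obtain ⟨w, hw1, hw2⟩ := exists_of_le_eRk (h4.trans h5)
    exact ⟨w, fun k => by
      obtain ⟨i, hi⟩ := hw1 k
      exact ⟨i, hi.symm⟩, hw2⟩

theorem cm_cf {x : A.X} (hx : Pool.Agent.Q280.MS.CM x.1) : A.CF x := by
  refine SysW.CF.intro ∅ x (by simp) ?_
  have h1 : ((A.w x : ℕ) : ℕ∞) = 1 := by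
    have : A.w x = 1 := wgt_cm hx
    rw [this]
    norm_num
  rw [h1]
  refine (M.eRk_union_le_eRk_add_eRk _ _).trans (add_le_add ?_ (rank_jet_cm x.2.1 hx))
  exact le_rfl

open Classical in
theorem closedForm_cf {x : ℂ} (hx : ClosedForm x) : ∃ p : A.X, p.1 = x ∧ A.CF p := by
  induction hx with
  | intro F z hF him hq h ih =>
    choose f hf1 hf2 using ih
    have hcm : ¬ Pool.Agent.Q280.MS.CM z := fun h' => hq ((cm_iff him).mpr h')
    obtain ⟨x, hx⟩ : ∃ x : A.X, x.1 = z := ⟨⟨z, him, jj_ne_of_ncm him hcm⟩, rfl⟩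
    -- the relation only uses finitely many quadratic classes
    have h1 : ¬ AlgebraicIndependent (IntermediateField.adjoin ℚ (A.P Sp ∪ ⋃ y ∈ (F : Set ℂ), range (numbers y)))
        (numbers z) := by
      intro h2
      exact h (indep_congr (sub_P_Sp F) h2)
    obtain ⟨i, hi⟩ := exists_dep _ h1
    obtain ⟨I, hI1, hI2, _, hI3⟩ := exists_mem_finite_closure_of_mem_closure hi
    obtain ⟨V, hV1, hV2⟩ := SysW.exists_classes (A := A) (B := Sp) (T := I ∩ A.P Sp)
      (hI2.subset inter_subset_left) inter_subset_right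
    have hfin : (Set.range fun y : F => (f y.1 y.2 : A.X)).Finite := Set.finite_range _
    refine ⟨x, hx, SysW.CF.intro (hfin.toFinset ∪ V.image Quotient.out) _ ?_ ?_⟩
    · intro y hy
      rw [Finset.mem_union] at hy
      rcases hy with hy | hy
      · rw [Set.Finite.mem_toFinset] at hy
        obtain ⟨t, rfl⟩ := hy
        exact hf2 _ _
      · rw [Finset.mem_image] at hy
        obtain ⟨v, hv, rfl⟩ := hy
        apply cm_cf
        apply mem_Sp.mp
        have : A.q (Quotient.out v) = v := Quotient.out_eq v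
        rw [this]
        exact hV1 (Finset.mem_coe.mpr hv)
    · obtain ⟨Y, hY⟩ : ∃ Y : Set ℂ, Y = ⋃ y ∈ hfin.toFinset ∪ V.image Quotient.out, A.S y := ⟨_, rfl⟩
      rw [← hY]
      have h3 : I ⊆ M.closure (Y ∪ numbers z '' {i}ᶜ) := by
        intro a ha
        rcases hI1 ha with (h4 | h4) | h4
        · have h5 := hV2 ⟨ha, h4⟩
          have h6 : A.P (V : Set A.O) ⊆ M.closure Y := by
            refine SysW.P_sub fun v hv => ⟨Quotient.out v, Quotient.out_eq v, ?_⟩
            refine Subset.trans ?_ (subset_cl _)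
            rw [hY]
            exact subset_biUnion_of_mem (u := fun y => A.S y) (Finset.mem_union_right _
              (Finset.mem_image.mpr ⟨v, Finset.mem_coe.mp hv, rfl⟩))
          exact cl_mono subset_union_left (h6 h5)
        · simp only [mem_iUnion] at h4
          obtain ⟨y, hy, hya⟩ := h4
          refine subset_cl _ (Or.inl ?_)
          rw [hY]
          simp only [mem_iUnion]
          refine ⟨f y hy, Finset.mem_union_left _ ((Set.Finite.mem_toFinset _).mpr ⟨⟨y, hy⟩, rfl⟩), ?_⟩
          show a ∈ jet (f y hy).1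
          rw [hf1, ← range_numbers]
          exact hya
        · exact subset_cl _ (Or.inr h4)
      have h4 : A.S x ⊆ M.closure (Y ∪ numbers z '' {i}ᶜ) := by
        show jet x.1 ⊆ _
        rw [hx, ← range_numbers]
        rintro _ ⟨k, rfl⟩
        by_cases hk : k = i
        · rw [hk]
          exact cl_sub h3 hI3
        · exact subset_cl _ (Or.inr ⟨k, hk, rfl⟩)
      have h5 : (numbers z '' {i}ᶜ).encard ≤ 3 := by
        refine (encard_image_le _ _).trans ?_
        have h1 : (({i}ᶜ : Set (Fin 4))).encard + ({i} : Set (Fin 4)).encard = (univ : Set (Fin 4)).encard := by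
          rw [add_comm, encard_add_encard_compl]
        rw [encard_singleton] at h1
        have h2 : (univ : Set (Fin 4)).encard = 3 + 1 := by
          simp
          norm_num
        rw [h2] at h1
        exact (ENat.add_le_add_iff_right (by simp)).mp h1.le
      have h6 : ((A.w x : ℕ) : ℕ∞) = 3 := by
        have : A.w x = 3 := by
          show wgt x.1 = 3
          rw [hx]
          exact wgt_ncm hcm
        rw [this]
        norm_num
      rw [h6]
      calc M.eRk (Y ∪ A.S x) ≤ M.eRk (M.closure (Y ∪ numbers z '' {i}ᶜ)) :=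
            M.eRk_mono (union_subset (subset_union_left.trans (subset_cl _)) h4)
        _ = M.eRk (Y ∪ numbers z '' {i}ᶜ) := M.eRk_closure_eq _
        _ ≤ M.eRk Y + M.eRk (numbers z '' {i}ᶜ) := M.eRk_union_le_eRk_add_eRk _ _
        _ ≤ M.eRk Y + 3 := add_le_add le_rfl ((M.eRk_le_encard _).trans h5)


/-- a point obtained by finitely many steps which is not quadratic is a closed form point -/
theorem cf_closedForm {x : A.X} (hx : A.CF x) (hq : ¬ Quadratic x.1) : ClosedForm x.1 := by
  classical
  induction hx with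
  | intro F x hF hx ih =>
    refine ClosedForm.intro ((F.filter fun y => ¬ Quadratic y.1).image fun y => y.1) x.1 ?_ x.2.1 hq ?_
    · intro y hy
      rw [Finset.mem_image] at hy
      obtain ⟨y', hy', rfl⟩ := hy
      rw [Finset.mem_filter] at hy'
      exact ih y' hy'.1 hy'.2
    · intro hind
      have hcm : ¬ Pool.Agent.Q280.MS.CM x.1 := fun h' => hq ((cm_iff x.2.1).mpr h')
      obtain ⟨T, hT⟩ : ∃ T : Set ℂ, T = ⋃ y ∈ F, A.S y := ⟨_, rfl⟩
      have h1 := rank_of_indep (T := T) (by
        rw [hT]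
        refine iUnion₂_subset fun y hy => ?_
        refine Subset.trans ?_ (subset_cl _)
        show jet y.1 ⊆ _
        rw [← range_numbers]
        by_cases h : Quadratic y.1
        · exact subset_biUnion_of_mem (u := fun y => range (numbers y)) (Or.inl ⟨y.2.1, h⟩)
        · refine subset_biUnion_of_mem (u := fun y => range (numbers y)) (Or.inr ?_)
          rw [Finset.mem_coe, Finset.mem_image]
          exact ⟨y, Finset.mem_filter.mpr ⟨hy, h⟩, rfl⟩) 4 (numbers x.1) hind
      rw [range_numbers] at h1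
      have h2 : A.S x = jet x.1 := rfl
      rw [← h2] at h1
      have h3 : ((A.w x : ℕ) : ℕ∞) = 3 := by
        have : A.w x = 3 := wgt_ncm hcm
        rw [this]
        norm_num
      rw [← hT, h3] at hx
      have h4 : M.eRk T ≠ ⊤ := by
        have h5 : T.Finite := by
          rw [hT]
          exact F.finite_toSet.biUnion fun y _ => A.fin y
        exact ne_top_of_le_ne_top (by rw [Set.encard_ne_top_iff]; exact h5) (M.eRk_le_encard T)
      have h6 := h1.trans hx
      have h7 : ((4 : ℕ) : ℕ∞) ≤ 3 := (ENat.add_le_add_iff_left h4).mp h6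
      exact absurd h7 (by norm_num)

/-- the classes of the special and closed form points -/
theorem mem_CFc {x : A.X} : A.q x ∈ SysW.CFc A ↔ Quadratic x.1 ∨ ∃ y, ClosedForm y ∧ Equivalent y x.1 := by
  constructor
  · rintro ⟨y, hy1, hy2⟩
    by_cases h : Quadratic y.1
    · left
      have h1 : A.q y ∈ Sp := mem_Sp.mpr ((cm_iff y.2.1).mp h)
      rw [hy1] at h1
      exact (cm_iff x.2.1).mpr (mem_Sp.mp h1)
    · exact Or.inr ⟨y.1, cf_closedForm hy2 h, q_eq_iff.mp hy1⟩
  · rintro (h | ⟨y, hy1, hy2⟩)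
    · exact ⟨x, rfl, cm_cf ((cm_iff x.2.1).mp h)⟩
    · obtain ⟨p, hp1, hp2⟩ := closedForm_cf hy1
      refine ⟨p, ?_, hp2⟩
      rw [q_eq_iff, hp1]
      exact hy2

theorem Sp_sub : Sp ⊆ SysW.CFc A := by
  intro v hv
  obtain ⟨x, rfl⟩ := Quotient.exists_rep v
  exact ⟨x, rfl, cm_cf (mem_Sp.mp hv)⟩

theorem ClosedForm.im_pos {z : ℂ} (h : ClosedForm z) : 0 < z.im := by cases h; assumption

theorem ClosedForm.not_quadratic {z : ℂ} (h : ClosedForm z) : ¬ Quadratic z := by cases h; assumption

theorem P_CFc_sub : A.P (SysW.CFc A) ⊆ M.closure (⋃ y ∈ QuadraticPoints ∪ {x | ClosedForm x}, range (numbers y)) := by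
  refine SysW.P_sub fun v hv => ?_
  obtain ⟨x, rfl, hx⟩ := hv
  refine ⟨x, rfl, Subset.trans ?_ (subset_cl _)⟩
  show jet x.1 ⊆ _
  rw [← range_numbers]
  by_cases h : Quadratic x.1
  · exact subset_biUnion_of_mem (u := fun y => range (numbers y)) (Or.inl ⟨x.2.1, h⟩)
  · exact subset_biUnion_of_mem (u := fun y => range (numbers y)) (Or.inr (cf_closedForm hx h))

theorem sub_P_CFc : (⋃ y ∈ QuadraticPoints ∪ {x | ClosedForm x}, range (numbers y)) ⊆ M.closure (A.P (SysW.CFc A)) := by
  refine iUnion₂_subset fun y hy => ?_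
  have him : 0 < y.im := by
    rcases hy with hy | hy
    · exact hy.1
    · exact ClosedForm.im_pos hy
  rw [range_numbers]
  by_cases hj : jj y = 0
  · exact jet_of_jj him hj _
  · refine Subset.trans ?_ (subset_cl _)
    refine SysW.S_sub_P (A := A) (x := ⟨y, him, hj⟩) (mem_CFc.mpr ?_)
    rcases hy with hy | hy
    · exact Or.inl hy.2
    · refine Or.inr ⟨y, hy, ?_⟩
      rw [eqv_iff him]
      exact Pool.Agent.Q280.MS.equivalent_refl _

open Classical in
/-- the tuple as a tuple of points of the system -/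
theorem tuple {n : ℕ} {z : Fin n → ℂ} (h1 : ∀ i, 0 < (z i).im) (h2 : ∀ i, ¬ Quadratic (z i))
    (h3 : ∀ i k, i ≠ k → ¬ Equivalent (z i) (z k)) :
    ∃ u : Fin n → A.X, (∀ i, (u i).1 = z i) ∧ (∀ i k, A.q (u i) = A.q (u k) → i = k) ∧
      (∀ i, A.q (u i) ∉ Sp) ∧ A.Wt (SysW.img u) = 3 * n := by
  obtain ⟨u, hu⟩ : ∃ u : Fin n → A.X, u = fun i => ⟨z i, h1 i, jj_ne_of_ncm (h1 i)
    fun h' => h2 i ((cm_iff (h1 i)).mpr h')⟩ := ⟨_, rfl⟩
  have hu1 : ∀ i, (u i).1 = z i := fun i => by rw [hu]
  have hinj : ∀ i k, A.q (u i) = A.q (u k) → i = k := by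
    intro i k hik
    by_contra hne
    rw [hu] at hik
    exact h3 i k hne (q_eq_iff.mp hik)
  have hncm : ∀ i, ¬ Pool.Agent.Q280.MS.CM (u i).1 := fun i h' => by
    rw [hu1] at h'
    exact h2 i ((cm_iff (h1 i)).mpr h')
  refine ⟨u, hu1, hinj, fun i hi => hncm i (mem_Sp.mp hi), ?_⟩
  rw [SysW.Wt_img u hinj]
  have : ∀ i, A.w (u i) = 3 := fun i => wgt_ncm (hncm i)
  rw [Finset.sum_congr rfl fun i _ => this i, Finset.sum_const, Finset.card_univ, Fintype.card_fin,
    smul_eq_mul, mul_comm]

theorem mem_S_iff {n : ℕ} {z : Fin n → ℂ} {u : Fin n → A.X} (hu : ∀ i, (u i).1 = z i) {a : ℂ} :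
    a ∈ (⋃ i, A.S (u i)) ↔ ∃ i t, a = numbers (z i) t := by
  have h1 : (⋃ i, A.S (u i)) = ⋃ i, jet (z i) := by
    refine iUnion_congr fun i => ?_
    show jet (u i).1 = _
    rw [hu]
  rw [h1]
  exact mem_numbers

open Classical in
/-- large subsets have a large defect over a set of classes -/
theorem over_part {B D : Set A.O} {W : Finset A.O} {a b : ℕ} (hW : SysW.dfc W = a)
    (habs : ∀ V : Finset A.O, (V : Set A.O) ⊆ B → ∃ W' : Finset A.O, V ⊆ W' ∧ (W' : Set A.O) ⊆ B ∧
      SysW.dfc W ≤ SysW.dfc W')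
    (hBD : B ⊆ D) (hD : ∀ V : Finset A.O, (V : Set A.O) ⊆ D → SysW.dfc V ≤ (a + b : ℕ))
    {n : ℕ} {z : Fin n → ℂ} (h1 : ∀ i, 0 < (z i).im) (h2 : ∀ i, ¬ Quadratic (z i))
    (h3 : ∀ i k, i ≠ k → ¬ Equivalent (z i) (z k))
    (h4 : ∀ (u : Fin n → A.X), (∀ i, (u i).1 = z i) → ∀ i, A.q (u i) ∈ D ∧ A.q (u i) ∉ B) :
    ∃ w : Fin (3 * n - b) → ℂ, (∀ k, ∃ i t, w k = numbers (z i) t) ∧
      AlgebraicIndependent (IntermediateField.adjoin ℚ (A.P B)) w := by
  obtain ⟨u, hu1, hu2, hu3, hu4⟩ := tuple h1 h2 h3
  obtain ⟨w, hw1, hw2⟩ := SysW.family_of (B := B) u (m := 3 * n - b) fun V hV => by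
    obtain ⟨W', h5, h6, h7⟩ := habs V hV
    refine ⟨W', h5, h6, ?_⟩
    have h8 : Disjoint W' (SysW.img u) := by
      rw [Finset.disjoint_left]
      intro v hv h
      unfold SysW.img at h
      rw [Finset.mem_image] at h
      obtain ⟨i, _, rfl⟩ := h
      exact (h4 u hu1 i).2 (h6 hv)
    have h9 := hD (W' ∪ SysW.img u) (by
      rw [Finset.coe_union]
      refine union_subset (h6.trans hBD) fun v hv => ?_
      unfold SysW.img at hv
      rw [Finset.mem_coe, Finset.mem_image] at hv
      obtain ⟨i, _, rfl⟩ := hv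
      exact (h4 u hu1 i).1)
    rw [hW] at h7
    unfold SysW.dfc at h7 h9
    rw [SysW.Wt_union_disj h8, hu4] at h9
    have h10 := SysW.rN_mono (A := A) (V := W') (W := W' ∪ SysW.img u) Finset.subset_union_left
    push_cast at h9
    omega
  exact ⟨w, fun k => (mem_S_iff hu1).mp (hw1 k), hw2⟩

open Classical in
/-- **The least errors of the three parts of the conjecture add.** -/
theorem result (C : ℕ) :
    ConjectureUpTo C ↔ ∃ a b c : ℕ, a + b + c = C ∧ SpecialUpTo a ∧ ClosedFormUpTo b ∧ GenericUpTo c := by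
  rw [conj_iff]
  constructor
  · intro h
    obtain ⟨a, W₁, hW1, hW2, hW3⟩ := SysW.exists_max (A := A) Sp (C := C) fun V _ => h V
    obtain ⟨a', W₂, hV1, hV2, hV3⟩ := SysW.exists_max (A := A) (SysW.CFc A) (C := C) fun V _ => h V
    have h1 : a ≤ a' := by
      have := hV3 W₁ (hW1.trans Sp_sub)
      rw [hW2] at this
      exact_mod_cast this
    have h2 : a' ≤ C := by
      have := h W₂
      rw [hV2] at this
      exact_mod_cast this
    refine ⟨a, a' - a, C - a', by omega, ?_, ?_, ?_⟩
    · rw [special_iff]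
      intro V hV
      have h3 := hW3 V hV
      unfold SysW.dfc at h3
      rw [Wt_Sp V hV] at h3
      omega
    · intro n z hz1 hz2
      obtain ⟨w, hw1, hw2⟩ := over_part (B := Sp) (D := SysW.CFc A) (b := a' - a) hW2 (fun V hV => by
        refine ⟨V ∪ W₁, Finset.subset_union_left, ?_, ?_⟩
        · rw [Finset.coe_union]
          exact union_subset hV hW1
        · have key : ∀ E : Finset A.O, (E : Set A.O) ⊆ Sp → SysW.dfc W₁ ≤ SysW.dfc (E ∪ W₁) := by
            intro E
            induction E using Finset.induction_on with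
            | empty => intro _; simp
            | insert v E _ ih =>
              intro hE
              rw [Finset.coe_insert, insert_subset_iff] at hE
              obtain ⟨x, rfl⟩ := Quotient.exists_rep v
              have hcm := mem_Sp.mp hE.1
              refine (ih hE.2).trans ?_
              rw [Finset.insert_union]
              refine SysW.dfc_step _ x ?_
              refine (M.eRk_union_le_eRk_add_eRk _ _).trans (add_le_add le_rfl ?_)
              have h1 : ((A.w x : ℕ) : ℕ∞) = 1 := by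
                have : A.w x = 1 := wgt_cm hcm
                rw [this]
                norm_num
              rw [h1]
              exact rank_jet_cm x.2.1 hcm
          exact key V hV)
        Sp_sub (fun V hV => by
          have := hV3 V hV
          rw [Nat.add_sub_cancel' h1]
          exact this) (fun i => (hz1 i).im_pos) (fun i => (hz1 i).not_quadratic) hz2 (fun u hu i => by
          refine ⟨mem_CFc.mpr (Or.inr ⟨z i, hz1 i, ?_⟩), fun h' => ?_⟩
          · rw [hu, eqv_iff (hz1 i).im_pos]
            exact Pool.Agent.Q280.MS.equivalent_refl _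
          · have h5 := mem_Sp.mp h'
            rw [hu] at h5
            exact (hz1 i).not_quadratic ((cm_iff (hz1 i).im_pos).mpr h5))
      exact ⟨w, hw1, indep_congr field_sub hw2⟩
    · intro n z hz1 hz2
      obtain ⟨w, hw1, hw2⟩ := over_part (B := SysW.CFc A) (D := univ) (b := C - a') hV2 (fun V hV => by
        obtain ⟨W', h3, h4, h5, h6⟩ := SysW.absorb_finset V hV W₂
        exact ⟨W', h5, h6.trans (union_subset hV1 le_rfl), h4⟩)
        (subset_univ _) (fun V _ => by
          have := h V
          rw [Nat.add_sub_cancel' h2]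
          exact this) (fun i => (hz1 i).1) (fun i => (hz1 i).2.1) hz2 (fun u hu i => by
          refine ⟨mem_univ _, fun h' => ?_⟩
          have h5 := mem_CFc.mp h'
          rw [hu] at h5
          rcases h5 with h5 | ⟨y, hy1, hy2⟩
          · exact (hz1 i).2.1 h5
          · exact (hz1 i).2.2 y hy1 hy2)
      exact ⟨w, hw1, indep_congr sub_P_CFc hw2⟩
  · rintro ⟨a, b, c, rfl, ha, hb, hc⟩ V
    rw [special_iff] at ha
    obtain ⟨V₁, hV1⟩ : ∃ V₁ : Finset A.O, V₁ = V.filter fun v => v ∈ Sp := ⟨_, rfl⟩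
    obtain ⟨V₂, hV2⟩ : ∃ V₂ : Finset A.O, V₂ = V.filter fun v => v ∉ Sp ∧ v ∈ SysW.CFc A := ⟨_, rfl⟩
    obtain ⟨V₃, hV3⟩ : ∃ V₃ : Finset A.O, V₃ = V.filter fun v => v ∉ Sp ∧ v ∉ SysW.CFc A := ⟨_, rfl⟩
    have hs1 : (V₁ : Set A.O) ⊆ Sp := fun v hv => by
      rw [hV1, Finset.mem_coe, Finset.mem_filter] at hv
      exact hv.2
    have hs2 : (V₂ : Set A.O) ⊆ SysW.CFc A := fun v hv => by
      rw [hV2, Finset.mem_coe, Finset.mem_filter] at hv
      exact hv.2.2
    have h1 := ha V₁ hs1
    -- the closed form points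
    obtain ⟨u, hu0, hu1, hu2, hu3⟩ := SysW.exists_reps V₂ {x : A.X | ClosedForm x.1} fun v hv => by
      rw [hV2, Finset.mem_filter] at hv
      obtain ⟨x, rfl, hx⟩ := hv.2.2
      exact ⟨x, cf_closedForm hx fun h' => hv.2.1 (mem_Sp.mpr ((cm_iff x.2.1).mp h')), rfl⟩
    obtain ⟨w, hw1, hw2⟩ := hb _ (fun i => (u i).1) (fun i => hu0 i)
      (fun i k hik he => hik (hu3 i k (q_eq_iff.mpr he)))
    have hi2 : SysW.img u = V₂ := by
      ext v
      unfold SysW.img
      rw [Finset.mem_image]
      constructor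
      · rintro ⟨i, _, rfl⟩
        exact hu1 i
      · intro hv
        obtain ⟨k, hk⟩ := hu2 v hv
        exact ⟨k, Finset.mem_univ _, hk⟩
    have h2 := SysW.rank_of_family (A := A) hs1 u w (fun k => (mem_S_iff fun _ => rfl).mpr (hw1 k))
      (indep_congr (P_Sp_sub.trans (subset_cl _)) hw2)
    rw [hi2] at h2
    -- the other points
    obtain ⟨u', hu0', hu1', hu2', hu3'⟩ := SysW.exists_reps V₃ univ fun v _ => by
      obtain ⟨x, rfl⟩ := Quotient.exists_rep v
      exact ⟨x, mem_univ _, rfl⟩
    have hnot : ∀ i, A.q (u' i) ∉ Sp ∧ A.q (u' i) ∉ SysW.CFc A := fun i => by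
      have := hu1' i
      rw [hV3, Finset.mem_filter] at this
      exact this.2
    obtain ⟨w', hw1', hw2'⟩ := hc _ (fun i => (u' i).1) (fun i => ⟨(u' i).2.1,
      fun h' => (hnot i).1 (mem_Sp.mpr ((cm_iff (u' i).2.1).mp h')),
      fun x hx hx' => (hnot i).2 (mem_CFc.mpr (Or.inr ⟨x, hx, hx'⟩))⟩)
      (fun i k hik he => hik (hu3' i k (q_eq_iff.mpr he)))
    have hi3 : SysW.img u' = V₃ := by
      ext v
      unfold SysW.img
      rw [Finset.mem_image]
      constructor
      · rintro ⟨i, _, rfl⟩
        exact hu1' i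
      · intro hv
        obtain ⟨k, hk⟩ := hu2' v hv
        exact ⟨k, Finset.mem_univ _, hk⟩
    have h3 := SysW.rank_of_family (A := A) (B := SysW.CFc A) (V := V₁ ∪ V₂) (by
      rw [Finset.coe_union]
      exact union_subset (hs1.trans Sp_sub) hs2) u' w' (fun k => (mem_S_iff fun _ => rfl).mpr (hw1' k))
      (indep_congr P_CFc_sub hw2')
    rw [hi3] at h3
    have hV : V₁ ∪ V₂ ∪ V₃ = V := by
      ext v
      rw [Finset.mem_union, Finset.mem_union, hV1, hV2, hV3, Finset.mem_filter, Finset.mem_filter,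
        Finset.mem_filter]
      tauto
    have hd12 : Disjoint V₁ V₂ := by
      rw [Finset.disjoint_left]
      intro v hv hv'
      rw [hV2, Finset.mem_filter] at hv'
      exact hv'.2.1 (hs1 hv)
    have hd3 : Disjoint (V₁ ∪ V₂) V₃ := by
      rw [Finset.disjoint_left]
      intro v hv hv'
      rw [hV3, Finset.mem_filter] at hv'
      rcases Finset.mem_union.mp hv with h' | h'
      · exact hv'.2.1 (hs1 h')
      · exact hv'.2.2 (hs2 h')
    have hwt3 : ∀ v, v ∉ Sp → A.wt v = 3 := fun v hv => (wt_or v).resolve_left hv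
    have e2 : A.Wt V₂ = 3 * V₂.card := by
      unfold SysW.Wt
      rw [Finset.sum_congr rfl fun v hv => hwt3 v (by rw [hV2, Finset.mem_filter] at hv; exact hv.2.1),
        Finset.sum_const, smul_eq_mul, mul_comm]
    have e3 : A.Wt V₃ = 3 * V₃.card := by
      unfold SysW.Wt
      rw [Finset.sum_congr rfl fun v hv => hwt3 v (by rw [hV3, Finset.mem_filter] at hv; exact hv.2.1),
        Finset.sum_const, smul_eq_mul, mul_comm]
    have hW : A.Wt V = V₁.card + 3 * V₂.card + 3 * V₃.card := by
      rw [← hV, SysW.Wt_union_disj hd3, SysW.Wt_union_disj hd12, e2, e3, Wt_Sp _ hs1]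
    rw [hV] at h3
    unfold SysW.dfc
    rw [hW]
    push_cast
    omega

end Pool.Agent.Results.MP_5e64e7_nt.ErrorsAdd
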