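import Pool.Agent.Q138.PS.XW
import Pool.Agent.Q138.PS.WI
import Pool.Agent.Q138.PS.WA
import Pool.Agent.Q138.PS.WJ
import Pool.Agent.Q138.AJ.R5e64e7

/-!
# Values of `j`, `j'`, `j''` at the points `log x / (2πi)` for the rational numbers `x` whose height is close to a power of a real
number

Let `n ≥ 1`, `0 ≤ δ ≤ 1`, `l < 1`, `β` real. There is a set `Z` of real numbers of Hausdorff dimension at most
`(β - 1 + δ) / (1 - l)` such that every real `α > 1` outside `Z` has the following property. For all `d` with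
`2 - 2 / ((d + 1) ^ (4 n + 1) + 1) < β`, all `A` and `0 < a < b < 1` there is `B` such that for all real algebraic `c > 0`, all
integers `j`, all real `D` and all large `N`, for EVERY integer `q` with `|q - c N ^ j α ^ N| ≤ D (c N ^ j α ^ N) ^ l`: for all but at
most `q ^ (2 n - 1 - δ)` of the `n`-tuples of rational numbers `x_k` in `[a, b]` with largest denominator `q`, no nonzero
polynomial of degree at most `d` in each variable, with integral coefficients of size at most `q ^ A`, takes at `π`, `log x_k` and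
the values of `j`, `D j`, `D² j` at `log x_k / (2πi)` a value of absolute value at most `q ^ (-B)`.

There are about `q ^ (2 n - 1)` such tuples. For given `d` and `δ + l < 2 / ((d + 1) ^ (4 n + 1) + 1)` one can take `β` such that
the dimension is smaller than `1`. For `n = 1` these are the fractions `p / q` in lowest terms.
-/

set_option autoImplicit false

namespace Pool.Agent.Results.MP_5e64e7_nt.HeightsNearPowers

open Filter  Pool.Agent.Q138.PS Pool.Agent.Q138.AJ.R5e64e7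

/-- the largest denominator -/
def largest {n : ℕ} (x : Fin n → ℚ) : ℕ := Finset.univ.sup fun j => (x j).den

theorem mono {n d : ℕ} {a b A B T T' : ℝ} (h1 : max 1 (2 ^ max B 0) ≤ T) (h2 : T ≤ T')
    (h3 : T' ≤ 2 * T) : Exceptional n d a b A (max B 0 + 1) T ⊆ Exceptional n d a b (max A 0) B T' := by
  have h4 : 1 ≤ T := (le_max_left _ _).trans h1
  rintro q ⟨hq, P, hP, hd, hc, hv⟩
  exact ⟨fun j => ⟨(hq j).1, (hq j).2.1, (hq j).2.2.trans h2⟩, P, hP, hd, fun e => (hc e).trans (num_coeff h4 h2),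
    hv.trans (num_value h4 ((le_max_right _ _).trans h1) h2 h3)⟩

theorem mono2 {n d : ℕ} {a b a' b' A A' B T : ℝ} (ha : a' ≤ a) (hb : b ≤ b') (hA : A ≤ A')
    (hT : 1 ≤ T) : Exceptional n d a b A B T ⊆ Exceptional n d a' b' A' B T := by
  rintro q ⟨hq, P, hP, hd, hc, hv⟩
  exact ⟨fun j => ⟨ha.trans (hq j).1, (hq j).2.1.trans hb, (hq j).2.2⟩, P, hP, hd,
    fun e => (hc e).trans (Real.rpow_le_rpow_of_exponent_le hT hA), hv⟩

/-- **Theorem.** -/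
theorem result (n : ℕ) (hn : 1 ≤ n) (β δ l : ℝ) (hδ : 0 ≤ δ) (hδ1 : δ ≤ 1) (hl : l < 1) :
    ∃ Z : Set ℝ, dimH Z ≤ ENNReal.ofReal ((β - 1 + δ) / (1 - l)) ∧ ∀ α : ℝ, 1 < α → α ∉ Z →
      ∀ d : ℕ, 2 - 2 / (((d : ℝ) + 1) ^ (4 * n + 1) + 1) < β → ∀ (A a b : ℝ), 0 < a → a < b → b < 1 →
        ∃ B : ℝ, ∀ c : ℝ, 0 < c → IsAlgebraic ℚ c → ∀ (j : ℤ) (D : ℝ), ∀ᶠ N : ℕ in atTop, ∀ q : ℕ, 1 ≤ q →
          NearPow α c j D l N q →
            (({x | x ∈ Exceptional n d a b A B q ∧ largest x = q}.ncard : ℕ) : ℝ) ≤ (q : ℝ) ^ (2 * (n : ℝ) - 1 - δ) := by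
  by_cases hβ1 : 1 < β
  swap
  · -- no degree is allowed
    refine ⟨∅, by simp, fun α _ _ d hd => absurd hd ?_⟩
    have h1 : (1 : ℝ) ≤ ((d : ℝ) + 1) ^ (4 * n + 1) := one_le_pow₀ (by linarith [(Nat.cast_nonneg d : (0 : ℝ) ≤ d)])
    have h2 : 2 / (((d : ℝ) + 1) ^ (4 * n + 1) + 1) ≤ 1 := by rw [div_le_one (by linarith)]; linarith
    rw [not_lt]
    linarith
  have hn' : (1 : ℝ) ≤ n := by exact_mod_cast hn
  have key : ∀ i : {d : ℕ // 2 - 2 / (((d : ℝ) + 1) ^ (4 * n + 1) + 1) < β} × ℕ ×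
      {i : ℚ × ℚ // 0 < (i.1 : ℝ) ∧ (i.1 : ℝ) < (i.2 : ℝ) ∧ (i.2 : ℝ) < 1}, ∃ B : ℝ, (∃ C : ℝ, ∀ Y : ℕ, 1 ≤ Y →
      cn (fun q => (q : ℝ) ^ (2 * (n : ℝ) - 1 - δ) ≤
        (({x | x ∈ Exceptional n i.1.1 (i.2.2.1.1 : ℝ) (i.2.2.1.2 : ℝ) (i.2.1 : ℝ) B q ∧ largest x = q}.ncard : ℕ) : ℝ)) Y ≤
          C * (Y : ℝ) ^ (β - 1 + δ)) ∧
      ∀ T : ℝ, 1 ≤ T → (Exceptional n i.1.1 (i.2.2.1.1 : ℝ) (i.2.2.1.2 : ℝ) (i.2.1 : ℝ) B T).Finite := by
    rintro ⟨⟨d, hd⟩, A, ⟨⟨a, b⟩, hab⟩⟩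
    obtain ⟨B, C, h⟩ := Pool.Agent.Q138.AJ.R5e64e7.result n d hn (a : ℝ) (b : ℝ) hab.1 hab.2.1 hab.2.2 (max (A : ℝ) 0) β
      (le_max_right _ _) hd
    obtain ⟨C', hC'⟩ := heavy_few (A := Fin n → ℚ) largest (fun T => Exceptional n d (a : ℝ) (b : ℝ) (A : ℝ) (max B 0 + 1) T)
      (fun T => Exceptional n d (a : ℝ) (b : ℝ) (max (A : ℝ) 0) B T) (2 * ((n : ℝ) - 1) + β) (2 * (n : ℝ) - 1 - δ) C
      (max 1 (2 ^ max B 0)) (by linarith) (by linarith) h fun T T' h1 h2 h3 => mono h1 h2 h3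
    refine ⟨max B 0 + 1, ⟨C', fun Y hY => (hC' Y hY).trans (le_of_eq ?_)⟩, fun T hT => ?_⟩
    · congr 2
      ring
    · refine (h T hT).1.subset ?_
      rintro q ⟨hq, P, hP, hd, hc, hv⟩
      refine ⟨hq, P, hP, hd, fun e => (hc e).trans (num_coeff hT le_rfl), hv.trans ?_⟩
      refine Real.rpow_le_rpow_of_exponent_le hT ?_
      have := le_max_left B 0
      linarith
  choose B hC hfin using key
  obtain ⟨Z, hZ, hz⟩ := pow_cn (fun (i : {d : ℕ // 2 - 2 / (((d : ℝ) + 1) ^ (4 * n + 1) + 1) < β} × ℕ ×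
      {i : ℚ × ℚ // 0 < (i.1 : ℝ) ∧ (i.1 : ℝ) < (i.2 : ℝ) ∧ (i.2 : ℝ) < 1}) q =>
    (q : ℝ) ^ (2 * (n : ℝ) - 1 - δ) ≤
      (({x | x ∈ Exceptional n i.1.1 (i.2.2.1.1 : ℝ) (i.2.2.1.2 : ℝ) (i.2.1 : ℝ) (B i) q ∧ largest x = q}.ncard : ℕ) : ℝ))
    (β - 1 + δ) l (by linarith) hl hC
  refine ⟨Z, hZ, fun α hα hαZ d hd A a b ha hab hb => ?_⟩
  obtain ⟨i, hi1, hi2⟩ := ends_unit ha hab hb
  refine ⟨B (⟨d, hd⟩, ⌈A⌉₊, i), fun c hc hca j D => ?_⟩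
  filter_upwards [hz α hα hαZ (⟨d, hd⟩, ⌈A⌉₊, i) c hc hca j D] with N hN q hq hnear
  have h1 := (not_le.1 (hN q hq hnear)).le
  refine le_trans ?_ h1
  have hq1 : (1 : ℝ) ≤ q := by exact_mod_cast hq
  refine (Nat.cast_le (α := ℝ)).2 (Set.ncard_le_ncard (fun x hx => ⟨mono2 hi1 hi2 (Nat.le_ceil A) hq1 hx.1, hx.2⟩) ?_)
  exact (hfin (⟨d, hd⟩, ⌈A⌉₊, i) q hq1).subset fun x hx => hx.1

end Pool.Agent.Results.MP_5e64e7_nt.HeightsNearPowers
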