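import Pool.Agent.Q280.MD.Over2

/-!
# The special part and the relative part of the modular Schanuel conjecture with derivatives and special points

For the special closure `U` of `(z_1, …, z_n)` one has `dim ⟨U⟩ - dim U = 3 m_1 + m_2`, where `m_1` is the number of the
`GL_2^+(ℚ)`-classes of the non-quadratic `z_i` and `m_2` is the number of the imaginary quadratic fields which contain some
`z_i` with `j(z_i) ≠ 0` (see the problem file).  So the conjecture says: for pairwise inequivalent points with `j(z_i) ≠ 0`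
there are `3 m_1 + m_2` algebraically independent numbers among the `z_i`, `j(z_i)`, `j'(z_i)`, `j''(z_i)`.

We prove that the conjecture is equivalent to the conjunction of two statements.

* *Special part*: for quadratic points `τ_1, …, τ_m` in different imaginary quadratic fields, with `j'(τ_k) ≠ 0`, the `m`
  numbers `j'(τ_1), …, j'(τ_m)` are algebraically independent.
* *Relative part*, a statement about real numbers: let `K` be the field generated by the values of `j`, `j'`, `j''` at all
  quadratic points.  For every admissible tuple `z_1, …, z_n` of non-quadratic points with `n` in `N` there are `3 n` real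
  numbers among the `8 n` numbers `Re a`, `Im a`, `a = z_i, j(z_i), j'(z_i), j''(z_i)`, which are algebraically independent
  over `K`.

Here one can choose freely: an infinite set `N` of integers, an open set `U` which meets the upper half-plane, and a finite
set `L` of closed form points, stable under `s(z) = - conj z`; a tuple of non-quadratic points is *admissible* if the points
lie in `U`, are pairwise inequivalent, their classes are stable under `s`, and each point of `L` is equivalent to some
`z_i`.  The set `E` of closed form points is the smallest set of non-quadratic points such that `z` is in `E` as soon as,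
for some finite `F ⊆ E`, there is a nontrivial polynomial relation between `z`, `j(z)`, `j'(z)`, `j''(z)` over the field
generated by `K`, `F`, `j(F)`, `j'(F)`, `j''(F)`.

Proof.  (1) If `w = g z` with `g` in `GL_2^+(ℚ)` and `j(z) ≠ 0`, then `w`, `j(w)`, `j'(w)`, `j''(w)` are algebraic over
`ℚ(z, j(z), j'(z), j''(z))`.  Let first `j'(z) ≠ 0`, `V(s) = j(z + s)`, `U(s) = j(g(z + s))`, and let `D` be a derivation of
`ℂ` which kills the four numbers at `z`; the derivation `V' D - (D V) d/ds` of the ring of power series kills `V` and the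
algebraic numbers, hence also `U`, which is integral over `ℚ̄[V]`, so `V' (D U) = (D V) U' = O(s^3)`.  The same equation,
with `g z = z`, shows that `j''(z)` is algebraic over `ℚ(j'(z))` at quadratic points (Diaz), and it shows that `j'(w)` is
algebraic over `ℚ(j''(z))` if `z` is equivalent to `i` and `j'(z) = 0`, `j''(z) ≠ 0`, `j'(w) ≠ 0`.  (2) So the
transcendence degree `r(V)` is well defined for finite sets `V` of classes; it is submodular, and if the inequality fails
for `V` and its reflection, it fails for their intersection or their union.  A failure is not repaired by adding the class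
of a point with a relation over the field of `V`, and every quadratic point has such a relation.
-/

set_option autoImplicit false

open Matroid Set Q241.SX

namespace Pool.Agent.Results.MP_5e64e7_nt.SpecialAndRelative

/-- the normalised Eisenstein series of weight `4` -/
noncomputable def E4 (τ : ℂ) : ℂ :=
  1 + 240 * ∑' m : ℕ, ((ArithmeticFunction.sigma 3 (m + 1) : ℕ) : ℂ) *
    Complex.exp (2 * (Real.pi : ℂ) * Complex.I * τ) ^ (m + 1)

/-- the normalised Eisenstein series of weight `6` -/
noncomputable def E6 (τ : ℂ) : ℂ :=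
  1 - 504 * ∑' m : ℕ, ((ArithmeticFunction.sigma 5 (m + 1) : ℕ) : ℂ) *
    Complex.exp (2 * (Real.pi : ℂ) * Complex.I * τ) ^ (m + 1)

/-- the modular invariant `j = q⁻¹ + 744 + 196884 q + ⋯` -/
noncomputable def J (τ : ℂ) : ℂ := 1728 * E4 τ ^ 3 / (E4 τ ^ 3 - E6 τ ^ 2)

/-- The numbers `z`, `j(z)`, `j'(z)`, `j''(z)`. -/
noncomputable def numbers (z : ℂ) : Fin 4 → ℂ := ![z, J z, deriv J z, deriv (deriv J) z]

/-- `z` is quadratic. -/
def Quadratic (z : ℂ) : Prop := ∃ a b c : ℤ, a ≠ 0 ∧ (a : ℂ) * z ^ 2 + (b : ℂ) * z + (c : ℂ) = 0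

/-- `w = (a z + b) / (c z + d)` for a rational matrix of positive determinant. -/
def Equivalent (z w : ℂ) : Prop :=
  ∃ a b c d : ℚ, 0 < a * d - b * c ∧ w = ((a : ℂ) * z + (b : ℂ)) / ((c : ℂ) * z + (d : ℂ))

open Classical in
/-- `1` for quadratic points and `3` for the other points -/
noncomputable def weight (z : ℂ) : ℕ := if Quadratic z then 1 else 3

/-- The conjecture: for pairwise inequivalent points with `j ≠ 0`, `m_1` of them not quadratic and `m_2` of them quadratic,
there are `3 m_1 + m_2` algebraically independent ones among the numbers `z_i`, `j(z_i)`, `j'(z_i)`, `j''(z_i)`. -/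
def Conjecture : Prop :=
  ∀ (n : ℕ) (z : Fin n → ℂ), (∀ i, 0 < (z i).im ∧ J (z i) ≠ 0) → (∀ i k, i ≠ k → ¬ Equivalent (z i) (z k)) →
    ∃ w : Fin (∑ i, weight (z i)) → ℂ, (∀ k, ∃ i t, w k = numbers (z i) t) ∧ AlgebraicIndependent ℚ w

/-- The special part of the conjecture: the values of `j'` at quadratic points in different imaginary quadratic fields are
algebraically independent, if they are not zero. -/
def SpecialPart : Prop :=
  ∀ (m : ℕ) (τ : Fin m → ℂ), (∀ i, 0 < (τ i).im ∧ Quadratic (τ i) ∧ deriv J (τ i) ≠ 0) →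
    (∀ i k, i ≠ k → ¬ Equivalent (τ i) (τ k)) → AlgebraicIndependent ℚ fun i => deriv J (τ i)

/-- The quadratic points of the upper half-plane. -/
def QuadraticPoints : Set ℂ := {τ | 0 < τ.im ∧ Quadratic τ}

/-- The field generated by the numbers `z`, `j(z)`, `j'(z)`, `j''(z)` with `z` quadratic or in `F`. -/
noncomputable abbrev fieldOf (F : Set ℂ) : IntermediateField ℚ ℂ :=
  IntermediateField.adjoin ℚ (⋃ y ∈ QuadraticPoints ∪ F, range (numbers y))

/-- The closed form points: the smallest set `E` of non-quadratic points of the upper half-plane which contains `z` as soon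
as, for some finite `F ⊆ E`, there is a nontrivial polynomial relation between `z`, `j(z)`, `j'(z)`, `j''(z)` over the field
generated by the values of `j`, `j'`, `j''` at the quadratic points and by the points of `F` and the values there. -/
inductive ClosedForm : ℂ → Prop
  | intro (F : Finset ℂ) (z : ℂ) (hF : ∀ y ∈ F, ClosedForm y) (him : 0 < z.im) (hq : ¬ Quadratic z)
      (h : ¬ AlgebraicIndependent (fieldOf F) (numbers z)) : ClosedForm z

/-- The tuples in the relative part: non-quadratic points of the upper half-plane in the set `U`, pairwise not equivalent,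
such that the set of their classes is stable under `z ↦ - conj z` and contains the classes of the points of `L`. -/
structure Admissible (L : Finset ℂ) (U : Set ℂ) {n : ℕ} (z : Fin n → ℂ) : Prop where
  im_pos : ∀ i, 0 < (z i).im
  mem : ∀ i, z i ∈ U
  not_quadratic : ∀ i, ¬ Quadratic (z i)
  inequivalent : ∀ i k, i ≠ k → ¬ Equivalent (z i) (z k)
  reflection : ∀ i, ∃ k, Equivalent (-(starRingEnd ℂ) (z i)) (z k)
  prescribed : ∀ x ∈ L, ∃ i, Equivalent x (z i)

/-- The relative part of the conjecture, over the field `fieldOf ∅` generated by the values of `j`, `j'`, `j''` at the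
quadratic points. -/
def RelativePart (L : Finset ℂ) (N : Set ℕ) (U : Set ℂ) : Prop :=
  ∀ n ∈ N, ∀ z : Fin n → ℂ, Admissible L U z → ∃ w : Fin (3 * n) → ℝ,
    (∀ k, ∃ (i : Fin n) (t : Fin 4), w k = (numbers (z i) t).re ∨ w k = (numbers (z i) t).im) ∧
    AlgebraicIndependent (fieldOf ∅) fun k => (w k : ℂ)

/-! ### Preparations -/

open Pool.Agent.Q280.MD
open Pool.Agent.TH21.MS (jj)

theorem J_eq : J = jj := rfl

theorem range_numbers (z : ℂ) : range (numbers z) = jet z := by
  rw [jet_eq_range, numbers, J_eq]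

theorem cm_iff {z : ℂ} (hz : 0 < z.im) : Quadratic z ↔ Pool.Agent.Q280.MS.CM z := (cm_iff_quad hz).symm

theorem eqv_iff {z w : ℂ} (hz : 0 < z.im) : Equivalent z w ↔ Pool.Agent.Q280.MS.Equivalent z w :=
  (equivalent_iff_div hz).symm

/-- the system of the points with `j ≠ 0` -/
@[reducible] noncomputable def A : SysW := sysD _ goodJ

theorem weight_eq {z : ℂ} (hz : 0 < z.im) : weight z = wgt z := by
  unfold weight wgt
  by_cases h : Quadratic z
  · rw [if_pos h, if_pos ((cm_iff hz).mp h)]
  · rw [if_neg h, if_neg fun h' => h ((cm_iff hz).mpr h')]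

theorem q_eq_iff {x y : A.X} : A.q x = A.q y ↔ Equivalent x.1 y.1 := by
  rw [eqv_iff x.2.1]
  exact sysD_q goodJ

theorem mem_numbers {n : ℕ} {z : Fin n → ℂ} {a : ℂ} : a ∈ (⋃ i, jet (z i)) ↔ ∃ i t, a = numbers (z i) t := by
  rw [mem_iUnion]
  refine exists_congr fun i => ?_
  rw [← range_numbers, mem_range]
  exact exists_congr fun t => eq_comm

/-- the quadratic classes -/
def Sp : Set A.O := {v | A.wt v = 1}

theorem mem_Sp {x : A.X} : A.q x ∈ Sp ↔ Pool.Agent.Q280.MS.CM x.1 := by
  show wgt x.1 = 1 ↔ _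
  constructor
  · intro h
    by_contra hcm
    rw [wgt_ncm hcm] at h
    norm_num at h
  · exact wgt_cm

theorem wt_or (v : A.O) : A.wt v = 1 ∨ A.wt v = 3 := by
  obtain ⟨x, rfl⟩ := Quotient.exists_rep v
  by_cases h : Pool.Agent.Q280.MS.CM x.1
  · exact Or.inl (wgt_cm h)
  · exact Or.inr (wgt_ncm h)

theorem P_Sp_sub : A.P Sp ⊆ ⋃ y ∈ QuadraticPoints ∪ ∅, range (numbers y) := by
  rintro a ⟨x, hx, ha⟩
  simp only [mem_iUnion]
  refine ⟨x.1, Or.inl ⟨x.2.1, (cm_iff x.2.1).mpr (mem_Sp.mp hx)⟩, ?_⟩
  rw [range_numbers]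
  exact ha

theorem sub_P_Sp (F : Set ℂ) : (⋃ y ∈ QuadraticPoints ∪ F, range (numbers y)) ⊆
    M.closure (A.P Sp ∪ ⋃ y ∈ F, range (numbers y)) := by
  refine iUnion₂_subset fun y hy => ?_
  rcases hy with hy | hy
  · rw [range_numbers]
    by_cases hj : jj y = 0
    · exact jet_of_jj hy.1 hj _
    · refine Subset.trans ?_ (subset_cl _)
      refine Subset.trans ?_ subset_union_left
      exact SysW.S_sub_P (A := A) (x := ⟨y, hy.1, hj⟩) (mem_Sp.mpr ((cm_iff hy.1).mp hy.2))
  · exact (subset_biUnion_of_mem (u := fun y => range (numbers y)) hy).trans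
      (subset_union_right.trans (subset_cl _))

theorem field_sub : (⋃ y ∈ QuadraticPoints ∪ ∅, range (numbers y)) ⊆ M.closure (A.P Sp) := by
  have := sub_P_Sp ∅
  simpa using this

/-- the rank of a set of quadratic classes -/
theorem rN_le_of_Sp (V : Finset A.O) (hV : (V : Set A.O) ⊆ Sp) : SysW.rN V ≤ V.card := by
  classical
  induction V using Finset.induction_on with
  | empty => rw [SysW.rN_empty]; exact Nat.zero_le _
  | insert v V hv ih =>
    have h1 := ih fun x hx => hV (Finset.mem_coe.mpr (Finset.mem_insert_of_mem hx))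
    obtain ⟨x, rfl⟩ := Quotient.exists_rep v
    have hcm : Pool.Agent.Q280.MS.CM x.1 := mem_Sp.mp (hV (Finset.mem_coe.mpr (Finset.mem_insert_self _ _)))
    have h2 := SysW.rk_insert_le (A := A) V x
    have h3 : M.eRk (A.P (V : Set A.O) ∪ A.S x) ≤ A.rk (V : Set A.O) + 1 :=
      (M.eRk_union_le_eRk_add_eRk _ _).trans (add_le_add le_rfl (rank_jet_cm x.2.1 hcm))
    have h4 := h2.trans h3
    rw [← SysW.coe_rN V] at h4
    have h5 : ((SysW.rN (insert (A.q x) V) : ℕ) : ℕ∞) ≤ ((SysW.rN V + 1 : ℕ) : ℕ∞) := by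
      rw [SysW.coe_rN, Nat.cast_add, Nat.cast_one]
      exact h4
    have h6 : SysW.rN (insert (A.q x) V) ≤ SysW.rN V + 1 := by exact_mod_cast h5
    rw [Finset.card_insert_of_notMem hv]
    have h7 : SysW.rN (insert (⟦x⟧ : A.O) V) = SysW.rN (insert (A.q x) V) := rfl
    rw [h7]
    omega

theorem Wt_Sp (V : Finset A.O) (hV : (V : Set A.O) ⊆ Sp) : A.Wt V = V.card := by
  unfold SysW.Wt
  rw [Finset.sum_congr rfl fun v hv => hV (Finset.mem_coe.mpr hv), Finset.sum_const, smul_eq_mul, mul_one]

theorem conj_iff : Conjecture ↔ ∀ V : Finset A.O, SysW.dfc V ≤ 0 := by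
  constructor
  · intro h V
    obtain ⟨u, _, h1, h2, h3⟩ := SysW.exists_reps V univ fun v _ => by
      obtain ⟨x, rfl⟩ := Quotient.exists_rep v
      exact ⟨x, mem_univ _, rfl⟩
    obtain ⟨w, hw1, hw2⟩ := h _ (fun i => (u i).1) (fun i => (u i).2)
      (fun i k hik he => hik (h3 i k (q_eq_iff.mpr he)))
    have h0 : ∑ i, weight (u i).1 = ∑ i, A.w (u i) :=
      Finset.sum_congr rfl fun i _ => weight_eq (u i).2.1
    have h4 : ((∑ i, weight (u i).1 : ℕ) : ℕ∞) ≤ A.rk (SysW.img u : Set A.O) := by
      rw [SysW.rk_img]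
      exact enat_le_eRk w hw2 fun k => subset_cl _ (mem_numbers.mpr (hw1 k))
    have h5 : SysW.img u = V := by
      classical
      ext v
      unfold SysW.img
      rw [Finset.mem_image]
      constructor
      · rintro ⟨i, _, rfl⟩
        exact h1 i
      · intro hv
        obtain ⟨k, hk⟩ := h2 v hv
        exact ⟨k, Finset.mem_univ _, hk⟩
    rw [h0, ← SysW.Wt_img u h3, h5, ← SysW.rN_le_iff] at h4
    unfold SysW.dfc
    omega
  · intro h n z h1 h2
    obtain ⟨u, hu⟩ : ∃ u : Fin n → A.X, u = fun i => ⟨z i, h1 i⟩ := ⟨_, rfl⟩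
    have hinj : ∀ i k, A.q (u i) = A.q (u k) → i = k := by
      intro i k hik
      by_contra hne
      rw [hu] at hik
      exact h2 i k hne (q_eq_iff.mp hik)
    have h3 := h (SysW.img u)
    unfold SysW.dfc at h3
    rw [SysW.Wt_img _ hinj] at h3
    have h0 : ∑ i, weight (z i) = ∑ i, A.w (u i) :=
      Finset.sum_congr rfl fun i _ => by rw [hu]; exact weight_eq (h1 i).1
    have h4 : ∑ i, weight (z i) ≤ SysW.rN (SysW.img u) := by omega
    rw [SysW.rN_le_iff, SysW.rk_img, hu] at h4
    obtain ⟨w, hw1, hw2⟩ := exists_of_le_eRk h4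
    exact ⟨w, fun k => mem_numbers.mp (hw1 k), hw2⟩

open Classical in
/-- the special part of the conjecture in terms of the ranks -/
theorem special_iff : SpecialPart ↔ ∀ V : Finset A.O, (V : Set A.O) ⊆ Sp → V.card ≤ SysW.rN V := by
  constructor
  · intro h V hV
    obtain ⟨u, hu0, h1, h2, h3⟩ := SysW.exists_reps V {x : A.X | deriv jj x.1 ≠ 0} fun v _ => by
      obtain ⟨x, rfl⟩ := Quotient.exists_rep v
      obtain ⟨y, hy1, hy2, hy3⟩ := exists_near x.2.1 x.2.2
      have hy4 : jj y ≠ 0 := fun h0 => hy3 (zeros4 hy1 (E4_of_jj hy1 h0)).2.1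
      exact ⟨⟨y, hy1, hy4⟩, hy3, q_eq_iff.mpr ((eqv_iff hy1).mpr hy2.symm)⟩
    have h4 := h _ (fun i => (u i).1) (fun i => ⟨(u i).2.1,
      (cm_iff (u i).2.1).mpr (mem_Sp.mp (hV (Finset.mem_coe.mpr (h1 i)))), hu0 i⟩)
      (fun i k hik he => hik (h3 i k (q_eq_iff.mpr he)))
    rw [SysW.rN_le_iff]
    refine enat_le_eRk _ h4 fun k => subset_cl _ ?_
    exact SysW.S_sub_P (A := A) (Finset.mem_coe.mpr (h1 k)) (jet2 _)
  · intro h m τ h1 h2
    obtain ⟨u, hu⟩ : ∃ u : Fin m → A.X, u = fun i => ⟨τ i, (h1 i).1, fun h0 =>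
      (h1 i).2.2 (zeros4 (h1 i).1 (E4_of_jj (h1 i).1 h0)).2.1⟩ := ⟨_, rfl⟩
    have hinj : ∀ i k, A.q (u i) = A.q (u k) → i = k := by
      intro i k hik
      by_contra hne
      rw [hu] at hik
      exact h2 i k hne (q_eq_iff.mp hik)
    have h3 := h (SysW.img u) (by
      intro v hv
      unfold SysW.img at hv
      rw [Finset.mem_coe, Finset.mem_image] at hv
      obtain ⟨i, _, rfl⟩ := hv
      rw [hu]
      exact mem_Sp.mpr ((cm_iff (h1 i).1).mp (h1 i).2.1))
    rw [SysW.card_image u hinj, SysW.rN_le_iff, SysW.rk_img] at h3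
    apply indep_of_rank
    refine h3.trans ?_
    rw [← M.eRk_closure_eq (range fun i => deriv J (τ i))]
    refine M.eRk_mono (iUnion_subset fun i => ?_)
    have h4 := jet_cm (h1 i).1 ((cm_iff (h1 i).1).mp (h1 i).2.1) (h1 i).2.2
    have h5 : A.S (u i) = jet (τ i) := by rw [hu]
    rw [h5]
    exact h4.trans (cl_mono (singleton_subset_iff.mpr ⟨i, rfl⟩))

theorem cm_cf {x : A.X} (hx : Pool.Agent.Q280.MS.CM x.1) : A.CF x := by
  refine SysW.CF.intro ∅ x (by simp) ?_
  have h1 : ((A.w x : ℕ) : ℕ∞) = 1 := by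
    have : A.w x = 1 := wgt_cm hx
    rw [this]
    norm_num
  rw [h1]
  refine (M.eRk_union_le_eRk_add_eRk _ _).trans (add_le_add ?_ (rank_jet_cm x.2.1 hx))
  exact le_rfl

open Classical in
theorem closedForm_cf {x : ℂ} (hx : ClosedForm x) : ∃ p : A.X, p.1 = x ∧ A.CF p := by
  induction hx with
  | intro F z hF him hq h ih =>
    choose f hf1 hf2 using ih
    have hcm : ¬ Pool.Agent.Q280.MS.CM z := fun h' => hq ((cm_iff him).mpr h')
    obtain ⟨x, hx⟩ : ∃ x : A.X, x.1 = z := ⟨⟨z, him, jj_ne_of_ncm him hcm⟩, rfl⟩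
    -- the relation only uses finitely many quadratic classes
    have h1 : ¬ AlgebraicIndependent (IntermediateField.adjoin ℚ (A.P Sp ∪ ⋃ y ∈ (F : Set ℂ), range (numbers y)))
        (numbers z) := by
      intro h2
      exact h (indep_congr (sub_P_Sp F) h2)
    obtain ⟨i, hi⟩ := exists_dep _ h1
    obtain ⟨I, hI1, hI2, _, hI3⟩ := exists_mem_finite_closure_of_mem_closure hi
    obtain ⟨V, hV1, hV2⟩ := SysW.exists_classes (A := A) (B := Sp) (T := I ∩ A.P Sp)
      (hI2.subset inter_subset_left) inter_subset_right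
    have hfin : (Set.range fun y : F => (f y.1 y.2 : A.X)).Finite := Set.finite_range _
    refine ⟨x, hx, SysW.CF.intro (hfin.toFinset ∪ V.image Quotient.out) _ ?_ ?_⟩
    · intro y hy
      rw [Finset.mem_union] at hy
      rcases hy with hy | hy
      · rw [Set.Finite.mem_toFinset] at hy
        obtain ⟨t, rfl⟩ := hy
        exact hf2 _ _
      · rw [Finset.mem_image] at hy
        obtain ⟨v, hv, rfl⟩ := hy
        apply cm_cf
        apply mem_Sp.mp
        have : A.q (Quotient.out v) = v := Quotient.out_eq v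
        rw [this]
        exact hV1 (Finset.mem_coe.mpr hv)
    · obtain ⟨Y, hY⟩ : ∃ Y : Set ℂ, Y = ⋃ y ∈ hfin.toFinset ∪ V.image Quotient.out, A.S y := ⟨_, rfl⟩
      rw [← hY]
      have h3 : I ⊆ M.closure (Y ∪ numbers z '' {i}ᶜ) := by
        intro a ha
        rcases hI1 ha with (h4 | h4) | h4
        · have h5 := hV2 ⟨ha, h4⟩
          have h6 : A.P (V : Set A.O) ⊆ M.closure Y := by
            refine SysW.P_sub fun v hv => ⟨Quotient.out v, Quotient.out_eq v, ?_⟩
            refine Subset.trans ?_ (subset_cl _)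
            rw [hY]
            exact subset_biUnion_of_mem (u := fun y => A.S y) (Finset.mem_union_right _
              (Finset.mem_image.mpr ⟨v, Finset.mem_coe.mp hv, rfl⟩))
          exact cl_mono subset_union_left (h6 h5)
        · simp only [mem_iUnion] at h4
          obtain ⟨y, hy, hya⟩ := h4
          refine subset_cl _ (Or.inl ?_)
          rw [hY]
          simp only [mem_iUnion]
          refine ⟨f y hy, Finset.mem_union_left _ ((Set.Finite.mem_toFinset _).mpr ⟨⟨y, hy⟩, rfl⟩), ?_⟩
          show a ∈ jet (f y hy).1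
          rw [hf1, ← range_numbers]
          exact hya
        · exact subset_cl _ (Or.inr h4)
      have h4 : A.S x ⊆ M.closure (Y ∪ numbers z '' {i}ᶜ) := by
        show jet x.1 ⊆ _
        rw [hx, ← range_numbers]
        rintro _ ⟨k, rfl⟩
        by_cases hk : k = i
        · rw [hk]
          exact cl_sub h3 hI3
        · exact subset_cl _ (Or.inr ⟨k, hk, rfl⟩)
      have h5 : (numbers z '' {i}ᶜ).encard ≤ 3 := by
        refine (encard_image_le _ _).trans ?_
        have h1 : (({i}ᶜ : Set (Fin 4))).encard + ({i} : Set (Fin 4)).encard = (univ : Set (Fin 4)).encard := by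
          rw [add_comm, encard_add_encard_compl]
        rw [encard_singleton] at h1
        have h2 : (univ : Set (Fin 4)).encard = 3 + 1 := by
          simp
          norm_num
        rw [h2] at h1
        exact (ENat.add_le_add_iff_right (by simp)).mp h1.le
      have h6 : ((A.w x : ℕ) : ℕ∞) = 3 := by
        have : A.w x = 3 := by
          show wgt x.1 = 3
          rw [hx]
          exact wgt_ncm hcm
        rw [this]
        norm_num
      rw [h6]
      calc M.eRk (Y ∪ A.S x) ≤ M.eRk (M.closure (Y ∪ numbers z '' {i}ᶜ)) :=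
            M.eRk_mono (union_subset (subset_union_left.trans (subset_cl _)) h4)
        _ = M.eRk (Y ∪ numbers z '' {i}ᶜ) := M.eRk_closure_eq _
        _ ≤ M.eRk Y + M.eRk (numbers z '' {i}ᶜ) := M.eRk_union_le_eRk_add_eRk _ _
        _ ≤ M.eRk Y + 3 := add_le_add le_rfl ((M.eRk_le_encard _).trans h5)

open Classical in
/-- **The special part and the relative part of the conjecture.** -/
theorem result (L : Finset ℂ) (hL : ∀ x ∈ L, ClosedForm x ∧ -(starRingEnd ℂ) x ∈ L) (N : Set ℕ)
    (hN : N.Infinite) (U : Set ℂ) (hU : IsOpen U) (hUne : ∃ u ∈ U, 0 < u.im) :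
    Conjecture ↔ SpecialPart ∧ RelativePart L N U := by
  rw [conj_iff, special_iff]
  constructor
  · intro h
    refine ⟨fun V hV => ?_, ?_⟩
    · have h1 := h V
      unfold SysW.dfc at h1
      rw [Wt_Sp V hV] at h1
      omega
    · intro n _ z hz
      obtain ⟨u, hu⟩ : ∃ u : Fin n → A.X, u = fun i => ⟨z i, hz.im_pos i, jj_ne_of_ncm (hz.im_pos i)
        fun h' => hz.not_quadratic i ((cm_iff (hz.im_pos i)).mpr h')⟩ := ⟨_, rfl⟩
      have hu1 : ∀ i, (u i).1 = z i := fun i => by rw [hu]
      have hinj : ∀ i k, A.q (u i) = A.q (u k) → i = k := by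
        intro i k hik
        by_contra hne
        rw [hu] at hik
        exact hz.inequivalent i k hne (q_eq_iff.mp hik)
      have hcon : ∀ V : Finset A.O, SysW.dfc V ≤ SysW.dfc (V.filter fun v => v ∈ Sp) := by
        intro V
        have h1 := h V
        have h2 : ((V.filter fun v => v ∈ Sp : Finset A.O) : Set A.O) ⊆ Sp := fun v hv =>
          (Finset.mem_filter.mp (Finset.mem_coe.mp hv)).2
        have h3 := rN_le_of_Sp _ h2
        have h4 : 0 ≤ SysW.dfc (V.filter fun v => v ∈ Sp) := by
          unfold SysW.dfc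
          rw [Wt_Sp _ h2]
          omega
        omega
      obtain ⟨w, hw1, hw2⟩ := SysW.family_of_concentrated hcon u hinj (fun i hi => by
        have := mem_Sp.mp hi
        rw [hu1] at this
        exact hz.not_quadratic i ((cm_iff (hz.im_pos i)).mpr this))
      have hsum : ∑ i, A.w (u i) = 3 * n := by
        have : ∀ i, A.w (u i) = 3 := fun i => by
          show wgt (u i).1 = 3
          rw [hu1]
          exact wgt_ncm fun h' => hz.not_quadratic i ((cm_iff (hz.im_pos i)).mpr h')
        rw [Finset.sum_congr rfl fun i _ => this i, Finset.sum_const, Finset.card_univ, Fintype.card_fin,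
          smul_eq_mul, mul_comm]
      have key : ∃ w : Fin (3 * n) → ℂ, (∀ k, w k ∈ ⋃ i, A.S (u i)) ∧
          AlgebraicIndependent (IntermediateField.adjoin ℚ (A.P Sp)) w := by
        rw [← hsum]
        exact ⟨w, hw1, hw2⟩
      obtain ⟨w1, hw3, hw4⟩ := key
      have hw5 : AlgebraicIndependent (fieldOf ∅) w1 := indep_congr field_sub hw4
      obtain ⟨R, hR⟩ : ∃ R : Set ℝ, R = {y | ∃ (i : Fin n) (t : Fin 4), y = (numbers (z i) t).re ∨
        y = (numbers (z i) t).im} := ⟨_, rfl⟩
      have hb : ∀ r ∈ R, (r : ℂ) ∈ M.closure ((fun x : ℝ => (x : ℂ)) '' R) :=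
        fun r hr => subset_cl _ ⟨r, hr, rfl⟩
      have h2 : (⋃ i, A.S (u i)) ⊆ M.closure ((fun x : ℝ => (x : ℂ)) '' R) := by
        refine iUnion_subset fun i => ?_
        show jet (u i).1 ⊆ _
        rw [hu1, ← range_numbers]
        rintro _ ⟨t, rfl⟩
        refine (Pool.Agent.Q280.MS.mem_cl_re_im (hb _ ?_) (hb _ ?_)).1
        · rw [hR]; exact ⟨i, t, Or.inl rfl⟩
        · rw [hR]; exact ⟨i, t, Or.inr rfl⟩
      obtain ⟨w2, hw6, hw7⟩ := transfer_over h2 w1 hw3 hw5
      choose v hv1 hv2 using hw6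
      refine ⟨v, fun k => ?_, ?_⟩
      · have := hv1 k
        rw [hR] at this
        exact this
      · have h3 : w2 = fun k => ((v k : ℝ) : ℂ) := funext fun k => (hv2 k).symm
        rw [h3] at hw7
        exact hw7
  · rintro ⟨hS, hR⟩ V
    by_contra hcon
    push Not at hcon
    have hV : A.Bad V := (SysW.bad_iff V).mpr hcon
    have hLc : ∀ x ∈ L, ∃ p : A.X, p.1 = x ∧ A.CF p := fun x hx => closedForm_cf (hL x hx).1
    choose f hf1 hf2 using hLc
    have hfin : (Set.range fun y : L => (f y.1 y.2 : A.X)).Finite := Set.finite_range _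
    obtain ⟨W, h1, h2, h3, h4⟩ := hV.exists_good (fun v => A.wt v = 3) (sysD_sup goodJ) hfin.toFinset (by
      intro y hy
      rw [Set.Finite.mem_toFinset] at hy
      obtain ⟨t, rfl⟩ := hy
      exact hf2 _ _) (by
      intro y hy
      rw [Set.Finite.mem_toFinset] at hy ⊢
      obtain ⟨t, rfl⟩ := hy
      refine ⟨⟨-(starRingEnd ℂ) t.1, (hL t.1 t.2).2⟩, ?_⟩
      refine Subtype.ext ?_
      show (f (-(starRingEnd ℂ) t.1) (hL t.1 t.2).2).1 = -(starRingEnd ℂ) (f t.1 t.2).1
      rw [hf1, hf1]) N hN
    obtain ⟨V1, hV1⟩ : ∃ V1 : Finset A.O, V1 = W.filter fun v => A.wt v = 3 := ⟨_, rfl⟩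
    obtain ⟨V2, hV2⟩ : ∃ V2 : Finset A.O, V2 = W.filter fun v => ¬ A.wt v = 3 := ⟨_, rfl⟩
    have h4' : V1.card ∈ N := by
      convert h4 using 2
      ext v
      simp [hV1]
    have hW : A.Wt W = 3 * V1.card + V2.card := by
      have e1 : A.Wt W = A.Wt V1 + A.Wt V2 := by
        rw [hV1, hV2]
        exact (Finset.sum_filter_add_sum_filter_not W _ _).symm
      have e2 : A.Wt V1 = 3 * V1.card := by
        have e0 : ∀ v ∈ V1, A.wt v = 3 := by
          intro v hv
          rw [hV1] at hv
          exact (Finset.mem_filter.mp hv).2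
        unfold SysW.Wt
        rw [Finset.sum_congr rfl e0, Finset.sum_const, smul_eq_mul, mul_comm]
      have e3 : A.Wt V2 = V2.card := by
        apply Wt_Sp
        intro v hv
        rw [hV2] at hv
        exact (wt_or v).resolve_right (Finset.mem_filter.mp (Finset.mem_coe.mp hv)).2
      rw [e1, e2, e3]
    obtain ⟨u0, hu0, hu0'⟩ := hUne
    obtain ⟨u, h8, h5, h6, h7⟩ := SysW.exists_reps V1 {x : A.X | x.1 ∈ U} fun v hv => by
      obtain ⟨x, rfl⟩ := Quotient.exists_rep v
      obtain ⟨w, hw1, hw2, hw3⟩ := exists_equivalent_in hU hu0 hu0' x.2.1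
      have hx3 : ¬ Pool.Agent.Q280.MS.CM x.1 := by
        rw [hV1] at hv
        have h9 : wgt x.1 = 3 := (Finset.mem_filter.mp hv).2
        intro hcm
        rw [wgt_cm hcm] at h9
        norm_num at h9
      have hw4 : ¬ Pool.Agent.Q280.MS.CM w := fun h => hx3 ((CM.iff x.2.1 hw2 hw3).mpr h)
      refine ⟨⟨w, hw2, jj_ne_of_ncm hw2 hw4⟩, hw1, ?_⟩
      exact q_eq_iff.mpr ((eqv_iff hw2).mpr hw3.symm)
    have hncm : ∀ i, ¬ Pool.Agent.Q280.MS.CM (u i).1 := by
      intro i hcm
      have h9 := h5 i
      rw [hV1] at h9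
      have h10 : wgt (u i).1 = 3 := (Finset.mem_filter.mp h9).2
      rw [wgt_cm hcm] at h10
      norm_num at h10
    have hV1W : V1 ⊆ W := by rw [hV1]; exact Finset.filter_subset _ _
    have hV2W : V2 ⊆ W := by rw [hV2]; exact Finset.filter_subset _ _
    have hadm : Admissible L U fun i => (u i).1 := by
      refine ⟨fun i => (u i).2.1, fun i => h8 i, fun i h => hncm i ((cm_iff (u i).2.1).mp h),
        fun i k hik he => hik (h7 i k (q_eq_iff.mpr he)), ?_, ?_⟩
      · intro i
        have h9 : SysW.τ (A.q (u i)) ∈ V1 := by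
          have h10 := h5 i
          rw [hV1, Finset.mem_filter] at h10 ⊢
          exact ⟨h2 _ h10.1, by rw [SysW.wt_τ]; exact h10.2⟩
        obtain ⟨k, hk⟩ := h6 _ h9
        exact ⟨k, q_eq_iff.mp hk.symm⟩
      · intro x hx
        have h9 : A.q (f x hx) ∈ W := h3 (Finset.mem_image.mpr ⟨f x hx,
          (Set.Finite.mem_toFinset _).mpr ⟨⟨x, hx⟩, rfl⟩, rfl⟩)
        have h10 : A.q (f x hx) ∈ V1 := by
          rw [hV1, Finset.mem_filter]
          refine ⟨h9, ?_⟩
          show wgt (f x hx).1 = 3
          rw [hf1]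
          have h11 := (hL x hx).1
          cases h11 with
          | intro F z hF him hq h => exact wgt_ncm fun h' => hq ((cm_iff him).mpr h')
        obtain ⟨k, hk⟩ := h6 _ h10
        have h11 : Equivalent (f x hx).1 (u k).1 := q_eq_iff.mp hk.symm
        rw [hf1] at h11
        exact ⟨k, h11⟩
    obtain ⟨w, hw1, hw2⟩ := hR _ h4' _ hadm
    have h9 := rank_of_indep (T := A.P (V2 : Set A.O)) (by
      refine Subset.trans ?_ (P_Sp_sub.trans (subset_cl _))
      apply SysW.P_mono
      intro v hv
      rw [hV2] at hv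
      exact (wt_or v).resolve_right (Finset.mem_filter.mp (Finset.mem_coe.mp hv)).2) _ _ hw2
    have h10 : M.eRk (A.P (V2 : Set A.O) ∪ range fun k => ((w k : ℝ) : ℂ)) ≤ A.rk (W : Set A.O) := by
      unfold SysW.rk
      rw [← M.eRk_closure_eq (A.P (W : Set A.O))]
      refine M.eRk_mono (union_subset ((SysW.P_mono (Finset.coe_subset.mpr hV2W)).trans (subset_cl _)) ?_)
      rintro _ ⟨k, rfl⟩
      obtain ⟨i, t, hi⟩ := hw1 k
      have h11 : numbers (u i).1 t ∈ jet (u i).1 := by
        rw [← range_numbers]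
        exact ⟨t, rfl⟩
      have h12 := conj_jet (X := A.P (W : Set A.O)) (u i).2.1
        ((SysW.S_sub_P (A := A) (x := u i) (Finset.mem_coe.mpr (hV1W (h5 i)))).trans (subset_cl _))
        ((SysW.S_sub_P (A := A) (x := A.σ (u i)) (Finset.mem_coe.mpr (h2 _ (hV1W (h5 i))))).trans (subset_cl _)) h11
      show ((w k : ℝ) : ℂ) ∈ _
      rcases hi with hi | hi
      · rw [hi]; exact h12.1
      · rw [hi]; exact h12.2
    have h13 := h9.trans h10
    have h14 : ((SysW.rN V2 + 3 * V1.card : ℕ) : ℕ∞) ≤ ((SysW.rN W : ℕ) : ℕ∞) := by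
      rw [SysW.coe_rN W, Nat.cast_add, SysW.coe_rN]
      exact h13
    have h15 : SysW.rN V2 + 3 * V1.card ≤ SysW.rN W := by exact_mod_cast h14
    have h16 := hS V2 (by
      intro v hv
      rw [hV2] at hv
      exact (wt_or v).resolve_right (Finset.mem_filter.mp (Finset.mem_coe.mp hv)).2)
    rw [SysW.bad_iff] at h1
    unfold SysW.dfc at h1
    rw [hW] at h1
    omega

end Pool.Agent.Results.MP_5e64e7_nt.SpecialAndRelative
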